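import Pool.Agent.Q166.OP.LocB

/-!
# Project OP (helper289): local variances of the averages
-/

set_option autoImplicit false

namespace Pool.Agent.Q166.OP

open MeasureTheory Set Filter Topology Q289.OP

variable {ι : Type} [Fintype ι] [DecidableEq ι] [PartialOrder ι]

omit [Fintype ι] [DecidableEq ι] [PartialOrder ι] in
theorem pt_cont (A B : ℝ) (N : ℕ) (c : ι → Fin (N + 1)) : Continuous (pt A B N c) := by
  unfold pt
  exact continuous_pi fun i => by fun_prop

omit [Fintype ι] [DecidableEq ι] in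
theorem pt_mem {A B : ℝ} (h : A < B) {N : ℕ} (c : ι → Fin (N + 1)) {c0 : ι → ℕ} {u : ι → ℝ}
    (hu : u ∈ VS c0) : pt A B N c u ∈ Bx ι A B := by
  rw [mem_bx]
  intro i
  exact in_box h (c i) (hu.1 i).1 (hu.1 i).2.le

omit [Fintype ι] [PartialOrder ι] in
theorem pt_update {A B : ℝ} {N : ℕ} {a : Fin N} {c : ι → Fin (N + 1)} {i : ι}
    (hi : c i = a.castSucc) (u : ι → ℝ) :
    pt A B N (Function.update c i a.succ) u = pt A B N c u + dl A B N • ev i := by
  funext j
  rw [Pi.add_apply, Pi.smul_apply, smul_eq_mul]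
  unfold pt
  by_cases hij : j = i
  · subst hij
    rw [Function.update_self, hi, Fin.val_succ, Fin.val_castSucc]
    simp only [ev, Pi.single_eq_same, mul_one]
    push_cast
    ring
  · rw [Function.update_of_ne hij]
    simp only [ev, Pi.single_eq_of_ne hij, mul_zero, add_zero]

theorem term_est {A B : ℝ} (hAB : A < B) {N : ℕ} {f : (ι → ℝ) → ℝ} (hf : ContDiff ℝ 1 f) {η : ℝ}
    {a : Fin N} {c : ι → Fin (N + 1)} {i : ι} (hi : c i = a.castSucc)
    (hv : (VS fun j => ((Function.update c i a.succ j : Fin (N + 1)) : ℕ)) =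
      (VS fun j => (c j : ℕ))) (hpos : 0 < vv fun j => (c j : ℕ))
    (hd : ∀ (i : ι) (x : ι → ℝ), x ∈ Bx ι A B → x + dl A B N • ev i ∈ Bx ι A B →
      (f (x + dl A B N • ev i) - f x) ^ 2 ≤ dl A B N ^ 2 * (gi f i x + η)) :
    (vv fun j => (c j : ℕ)) * (av A B N f (Function.update c i a.succ) - av A B N f c) ^ 2 ≤
      dl A B N ^ 2 * ∫ u in VS (fun j => (c j : ℕ)), (gi f i (pt A B N c u) + η) := by
  have hvv : (vv fun j => ((Function.update c i a.succ j : Fin (N + 1)) : ℕ)) =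
      vv fun j => (c j : ℕ) := by
    unfold vv
    rw [hv]
  obtain ⟨V, hV⟩ : ∃ V : ℝ, V = vv fun j => (c j : ℕ) := ⟨_, rfl⟩
  have hc1 : Continuous fun u => f (pt A B N (Function.update c i a.succ) u) :=
    hf.continuous.comp (pt_cont A B N _)
  have hc2 : Continuous fun u => f (pt A B N c u) := hf.continuous.comp (pt_cont A B N _)
  have hc3 : Continuous fun u => gi f i (pt A B N c u) + η :=
    ((gi_cont hf i).comp (pt_cont A B N _)).add continuous_const
  have e1 : av A B N f (Function.update c i a.succ) - av A B N f c =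
      (∫ u in VS (fun j => (c j : ℕ)),
        (f (pt A B N (Function.update c i a.succ) u) - f (pt A B N c u))) / V := by
    unfold av
    rw [hv, hvv, ← hV, integral_sub (vs_int hc1 _) (vs_int hc2 _), sub_div]
  have j1 := jensen (hc1.sub hc2) (fun j => (c j : ℕ)) hpos
  rw [e1, ← hV]
  rw [← hV] at j1 hpos
  have e2 : V * ((∫ u in VS (fun j => (c j : ℕ)),
      (f (pt A B N (Function.update c i a.succ) u) - f (pt A B N c u))) / V) ^ 2 =
      (∫ u in VS (fun j => (c j : ℕ)),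
        (f (pt A B N (Function.update c i a.succ) u) - f (pt A B N c u))) ^ 2 / V := by
    field_simp
  rw [e2]
  refine j1.trans ?_
  rw [← integral_const_mul]
  refine setIntegral_mono_on (vs_int ((hc1.sub hc2).pow 2) _) (vs_int (hc3.const_mul _) _)
    (vs_meas _) ?_
  intro u hu
  have m1 := pt_mem hAB c hu
  have m2 := pt_mem hAB (Function.update c i a.succ) hu
  rw [pt_update hi] at m2
  have k := hd i _ m1 m2
  rw [← pt_update hi] at k
  exact k

omit [PartialOrder ι] [DecidableEq ι] in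
/-- at most one cell contains the label -/
theorem sum_one {N : ℕ} (b : Fin (N + 1)) {Y : ℝ} (hY : 0 ≤ Y) :
    (∑ a : Fin N, if b = a.castSucc then Y else 0) ≤ Y := by
  by_cases h : ∃ a0 : Fin N, b = a0.castSucc
  · obtain ⟨a0, rfl⟩ := h
    rw [Finset.sum_eq_single a0]
    · rw [if_pos rfl]
    · intro a _ ha
      rw [if_neg]
      intro h
      exact ha (Fin.castSucc_injective N h).symm
    · intro h
      exact absurd (Finset.mem_univ _) h
  · push Not at h
    rw [Finset.sum_eq_zero (fun a _ => if_neg (h a))]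
    exact hY

theorem cell_sum {φ : ℝ → ℝ} {A B : ℝ} {N : ℕ} {f : (ι → ℝ) → ℝ}
    (hf : ContDiff ℝ 1 f) (η r : ℝ) :
    ∑ i : ι, ∑ c : ι → Fin (N + 1), r * ((∏ j, qq φ A B N (c j)) *
      ∫ u in VS (fun j => (c j : ℕ)), (gi f i (pt A B N c u) + η)) =
    r * (IN φ A B N (gr f) + Fintype.card ι * η * IN (ι := ι) φ A B N (fun _ => 1)) := by
  rw [Finset.sum_comm]
  unfold IN
  rw [Finset.mul_sum, ← Finset.sum_add_distrib, Finset.mul_sum]
  refine Finset.sum_congr rfl fun c _ => ?_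
  rw [← Finset.mul_sum, ← Finset.mul_sum]
  congr 1
  have h1 : ∀ i : ι, ∫ u in VS (fun j => (c j : ℕ)), (gi f i (pt A B N c u) + η) =
      (∫ u in VS (fun j => (c j : ℕ)), gi f i (pt A B N c u)) +
        η * ∫ u in VS (fun j => (c j : ℕ)), (1 : ℝ) := by
    intro i
    have hg : IntegrableOn (fun u => gi f i (pt A B N c u)) (VS (fun j => (c j : ℕ))) :=
      vs_int ((gi_cont hf i).comp (pt_cont A B N _)) _
    rw [integral_add hg (integrableOn_const (vs_fin _)), int_const, int_const, one_mul]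
  rw [Finset.sum_congr rfl fun i _ => h1 i, Finset.sum_add_distrib, Finset.sum_const,
    Finset.card_univ, nsmul_eq_mul]
  have h2 : ∫ u in VS (fun j => (c j : ℕ)), gr f (pt A B N c u) =
      ∑ i, ∫ u in VS (fun j => (c j : ℕ)), gi f i (pt A B N c u) := by
    rw [← integral_finsetSum]
    · rfl
    · intro i _
      exact vs_int ((gi_cont hf i).comp (pt_cont A B N _)) _
  rw [h2]
  ring

/-- the averages over neighbouring cells -/
theorem av_close (h0 : S_VPOS) {A B L : ℝ} (hAB : A < B) {N : ℕ} {f : (ι → ℝ) → ℝ}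
    (hf : ContDiff ℝ 1 f) (hL0 : 0 ≤ L)
    (hL : ∀ x ∈ Bx ι A B, ∀ y ∈ Bx ι A B, |f x - f y| ≤ L * dist x y) {a : Fin N}
    {c d : ι → Fin (N + 1)} (hc : Monotone c) (hd : Monotone d) (hb : blk a c d) :
    |av A B N f c - av A B N f d| ≤ L * (2 * dl A B N) := by
  have hδ := dl_pos hAB N
  have hc' : Monotone fun i => (c i : ℕ) := fun i j hij => hc hij
  have hd' : Monotone fun i => (d i : ℕ) := fun i j hij => hd hij
  have hcp := (h0 ι (fun i => (c i : ℕ))).2.2.2 hc'
  have hdp := (h0 ι (fun i => (d i : ℕ))).2.2.2 hd'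
  have hpt : ∀ u ∈ VS (fun i => (c i : ℕ)), ∀ v ∈ VS (fun i => (d i : ℕ)),
      |f (pt A B N c u) - f (pt A B N d v)| ≤ L * (2 * dl A B N) := by
    intro u hu v hv
    refine (hL _ (pt_mem hAB c hu) _ (pt_mem hAB d hv)).trans ?_
    refine mul_le_mul_of_nonneg_left ?_ hL0
    rw [dist_pi_le_iff (by positivity)]
    intro i
    unfold pt
    rw [Real.dist_eq]
    have e : A + dl A B N * (((c i : ℕ) : ℝ) + u i) - (A + dl A B N * (((d i : ℕ) : ℝ) + v i)) =
        dl A B N * ((((c i : ℕ) : ℝ) - ((d i : ℕ) : ℝ)) + (u i - v i)) := by ring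
    rw [e, abs_mul, abs_of_pos hδ, mul_comm]
    refine mul_le_mul_of_nonneg_right ?_ hδ.le
    have h1 : |((c i : ℕ) : ℝ) - ((d i : ℕ) : ℝ)| ≤ 1 := by
      rcases hb i with h | ⟨h, h'⟩
      · rw [h, sub_self, abs_zero]
        exact zero_le_one
      · rcases h with h | h <;> rcases h' with h' | h' <;> rw [h, h'] <;>
        simp only [Fin.val_succ, Fin.val_castSucc] <;> push_cast <;> rw [abs_le] <;>
        constructor <;> linarith
    have h2 : |u i - v i| ≤ 1 := by
      have a1 := hu.1 i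
      have a2 := hv.1 i
      rw [abs_le]
      constructor <;> linarith [a1.1, a1.2, a2.1, a2.2]
    calc |(((c i : ℕ) : ℝ) - ((d i : ℕ) : ℝ)) + (u i - v i)| ≤
          |((c i : ℕ) : ℝ) - ((d i : ℕ) : ℝ)| + |u i - v i| := abs_add_le _ _
      _ ≤ 2 := by linarith
  have hcc : Continuous fun u => f (pt A B N c u) := hf.continuous.comp (pt_cont A B N _)
  have hcd : Continuous fun u => f (pt A B N d u) := hf.continuous.comp (pt_cont A B N _)
  have s1 : ∀ v ∈ VS (fun i => (d i : ℕ)),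
      |f (pt A B N d v) - av A B N f c| ≤ L * (2 * dl A B N) := by
    intro v hv
    rw [abs_sub_comm]
    exact avg_close hcc _ hcp fun u hu => hpt u hu v hv
  rw [abs_sub_comm]
  exact avg_close hcd _ hdp s1

theorem loc (h0 : S_VPOS) (h1 : S_VSU) (h2 : S_L1) (h3 : S_L2) (h4 : S_RIE) : S_LOC := by
  intro ι _ _ _ φ A B hG f hf ε hε
  have hAB := hG.lt
  obtain ⟨m, Φ, hm, hmΦ⟩ := exists_bounds hG
  obtain ⟨L, hL0, hL⟩ := lip hf A B
  have hΦ : 0 < Φ := by
    have := hmΦ A (left_mem_Icc.2 hAB.le)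
    linarith [this.1, this.2]
  have hBA : 0 < B - A := by linarith
  -- the constants
  obtain ⟨n, hn⟩ : ∃ n : ℝ, n = (Fintype.card ι : ℝ) := ⟨_, rfl⟩
  have hn0 : 0 ≤ n := by rw [hn]; exact Nat.cast_nonneg _
  have hgr : Continuous (gr f) := by
    have : gr f = fun x => ∑ i, gi f i x := rfl
    rw [this]
    exact continuous_finsetSum _ fun i _ => gi_cont hf i
  have t1 := h4 ι φ A B hG (gr f) hgr
  have t2 := h4 ι φ A B hG (fun _ => 1) continuous_const
  obtain ⟨G, hGd⟩ : ∃ G : ℝ, G = |IA φ A B (gr f)| + 1 := ⟨_, rfl⟩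
  obtain ⟨I1, hI1⟩ : ∃ I1 : ℝ, I1 = |IA (ι := ι) φ A B (fun _ => 1)| + 1 := ⟨_, rfl⟩
  have hG0 : 0 < G := by rw [hGd]; positivity
  have hI0 : 0 < I1 := by rw [hI1]; positivity
  have v1 : ∀ᶠ N : ℕ in atTop, IN φ A B N (gr f) < G := by
    refine t1.eventually (gt_mem_nhds ?_)
    rw [hGd]
    linarith [le_abs_self (IA φ A B (gr f))]
  have v2 : ∀ᶠ N : ℕ in atTop, IN (ι := ι) φ A B N (fun _ => 1) < I1 := by
    refine t2.eventually (gt_mem_nhds ?_)
    rw [hI1]
    linarith [le_abs_self (IA (ι := ι) φ A B (fun _ => 1))]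
  obtain ⟨η, hη⟩ : ∃ η : ℝ, η = min (1 / 2) (ε / (4 * G)) := ⟨_, rfl⟩
  have hη0 : 0 < η := by rw [hη]; exact lt_min (by norm_num) (by positivity)
  have hη1 : η ≤ 1 / 2 := by rw [hη]; exact min_le_left _ _
  have hη2 : η * G ≤ ε / 4 := by
    have : η ≤ ε / (4 * G) := by rw [hη]; exact min_le_right _ _
    calc η * G ≤ ε / (4 * G) * G := mul_le_mul_of_nonneg_right this hG0.le
      _ = ε / 4 := by field_simp
  obtain ⟨θ, hθ⟩ : ∃ θ : ℝ, θ = ε / (8 * (n + 1) * I1) := ⟨_, rfl⟩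
  have hθ0 : 0 < θ := by rw [hθ]; positivity
  have hθ1 : 2 * (n * θ * I1) ≤ ε / 4 := by
    have : n * θ * I1 = (n / (n + 1)) * (ε / 8) := by
      rw [hθ]
      field_simp
    rw [this]
    have h5 : n / (n + 1) ≤ 1 := by
      rw [div_le_one (by linarith)]
      linarith
    nlinarith
  obtain ⟨K, hK⟩ : ∃ K : ℝ, K = (L * 2) ^ 2 * n ^ 2 * (4 * Φ ^ 2 * (B - A)) *
    (Φ * (B - A)) ^ (Fintype.card ι) / (m * (B - A)) ^ 2 := ⟨_, rfl⟩
  have hK0 : 0 ≤ K := by rw [hK]; positivity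
  have v3 : ∀ᶠ N : ℕ in atTop, K * dl A B N < ε / 4 := by
    have h5 := (dl_tendsto A B).const_mul K
    rw [mul_zero] at h5
    exact h5.eventually (gt_mem_nhds (by positivity))
  filter_upwards [v1, v2, v3, ratio hG hη0 hη1, diff_est hf hAB hθ0] with N w1 w2 w3 w4 w5
  -- the masses
  obtain ⟨δ, hδd⟩ : ∃ δ : ℝ, δ = dl A B N := ⟨_, rfl⟩
  have hδ : 0 < δ := by rw [hδd]; exact dl_pos hAB N
  have hδN : δ * ((N : ℝ) + 1) = B - A := by rw [hδd]; exact dl_mul A B N
  obtain ⟨q, hq⟩ : ∃ q : Fin (N + 1) → ℝ, q = qq φ A B N := ⟨_, rfl⟩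
  have q1 : ∀ b, m * δ ≤ q b := by
    intro b
    rw [hq, hδd]
    exact qq_ge hG b fun x hx => (hmΦ x (cl_sub hAB b hx)).1
  have q2 : ∀ b, q b ≤ Φ * δ := by
    intro b
    rw [hq, hδd]
    exact qq_le hG b fun x hx => (hmΦ x (cl_sub hAB b hx)).2
  have q0 : ∀ b, 0 < q b := fun b => lt_of_lt_of_le (by positivity) (q1 b)
  have Q1 : m * (B - A) ≤ ∑ b, q b := by
    have h5 : ∑ _b : Fin (N + 1), m * δ ≤ ∑ b, q b := Finset.sum_le_sum fun b _ => q1 b
    rw [Finset.sum_const, Finset.card_univ, Fintype.card_fin, nsmul_eq_mul] at h5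
    push_cast at h5
    calc m * (B - A) = ((N : ℝ) + 1) * (m * δ) := by rw [← hδN]; ring
      _ ≤ _ := h5
  have Q2 : ∑ b, q b ≤ Φ * (B - A) := by
    have h5 : ∑ b, q b ≤ ∑ _b : Fin (N + 1), Φ * δ := Finset.sum_le_sum fun b _ => q2 b
    rw [Finset.sum_const, Finset.card_univ, Fintype.card_fin, nsmul_eq_mul] at h5
    push_cast at h5
    calc _ ≤ ((N : ℝ) + 1) * (Φ * δ) := h5
      _ = Φ * (B - A) := by rw [← hδN]; ring
  have Q0 : 0 < ∑ b, q b := lt_of_lt_of_le (by positivity) Q1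
  have Q3 : ∑ a : Fin N, (q a.castSucc + q a.succ) ^ 2 ≤ 4 * Φ ^ 2 * (B - A) * δ := by
    have h5 : ∑ a : Fin N, (q a.castSucc + q a.succ) ^ 2 ≤ ∑ _a : Fin N, (2 * (Φ * δ)) ^ 2 := by
      refine Finset.sum_le_sum fun a _ => ?_
      refine pow_le_pow_left₀ (by linarith [q0 a.castSucc, q0 a.succ]) ?_ 2
      linarith [q2 a.castSucc, q2 a.succ]
    rw [Finset.sum_const, Finset.card_univ, Fintype.card_fin, nsmul_eq_mul] at h5
    refine h5.trans ?_
    rw [← hδN]
    have h6 : 0 ≤ (2 * (Φ * δ)) ^ 2 := sq_nonneg _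
    nlinarith
  have hfinal : (1 + η) / 2 * δ ^ 2 * (IN φ A B N (gr f) +
      Fintype.card ι * θ * IN (ι := ι) φ A B N (fun _ => 1)) + K * δ ^ 3 ≤
      δ ^ 2 / 2 * (IN φ A B N (gr f) + ε) := by
    rw [← hn]
    rw [← hδd] at w3
    have e1 : η * IN φ A B N (gr f) ≤ ε / 4 :=
      (mul_le_mul_of_nonneg_left w1.le hη0.le).trans hη2
    have e2 : n * θ * IN (ι := ι) φ A B N (fun _ => 1) ≤ n * θ * I1 :=
      mul_le_mul_of_nonneg_left w2.le (by positivity)
    have e3 : (1 + η) * (n * θ * IN (ι := ι) φ A B N (fun _ => 1)) ≤ ε / 4 := by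
      have h5 : (1 + η) * (n * θ * IN (ι := ι) φ A B N (fun _ => 1)) ≤ (1 + η) * (n * θ * I1) :=
        mul_le_mul_of_nonneg_left e2 (by linarith)
      have h6 : (1 + η) * (n * θ * I1) ≤ 2 * (n * θ * I1) :=
        mul_le_mul_of_nonneg_right (by linarith) (by positivity)
      linarith
    have e4 : K * δ ^ 3 ≤ δ ^ 2 * (ε / 4) := by
      calc K * δ ^ 3 = δ ^ 2 * (K * δ) := by ring
        _ ≤ δ ^ 2 * (ε / 4) := mul_le_mul_of_nonneg_left w3.le (by positivity)
    have e5 : (1 + η) / 2 * δ ^ 2 * (IN φ A B N (gr f) +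
        n * θ * IN (ι := ι) φ A B N (fun _ => 1)) =
        δ ^ 2 / 2 * (IN φ A B N (gr f) + η * IN φ A B N (gr f) +
          (1 + η) * (n * θ * IN (ι := ι) φ A B N (fun _ => 1))) := by ring
    rw [e5]
    have e6 : δ ^ 2 / 2 * (IN φ A B N (gr f) + η * IN φ A B N (gr f) +
          (1 + η) * (n * θ * IN (ι := ι) φ A B N (fun _ => 1))) ≤
        δ ^ 2 / 2 * (IN φ A B N (gr f) + ε / 4 + ε / 4) :=
      mul_le_mul_of_nonneg_left (by linarith) (by positivity)
    have e7 : δ ^ 2 / 2 * (IN φ A B N (gr f) + ε / 4 + ε / 4) + δ ^ 2 * (ε / 4) =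
        δ ^ 2 / 2 * (IN φ A B N (gr f) + ε) := by ring
    linarith
  rw [← hδd] at w5 ⊢
  refine le_trans ?_ hfinal
  rw [← hq] at w4 ⊢
  have hvpos : ∀ c : ι → Fin (N + 1), Monotone c → 0 < vv fun i => (c i : ℕ) :=
    fun c hc => (h0 ι (fun i => (c i : ℕ))).2.2.2 fun i j hij => hc hij
  have hvnn : ∀ c : ι → Fin (N + 1), 0 ≤ vv fun i => (c i : ℕ) :=
    fun c => (h0 ι (fun i => (c i : ℕ))).1
  refine (h2 ι N q q0 (av A B N f)).trans (add_le_add ?_ ?_)
  · -- the first sum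
    have hY0 : ∀ (i : ι) (c : ι → Fin (N + 1)), 0 ≤ (1 + η) / 2 * δ ^ 2 *
        ((∏ j, qq φ A B N (c j)) * ∫ u in VS (fun j => (c j : ℕ)), (gi f i (pt A B N c u) + θ)) := by
      intro i c
      have h5 : 0 ≤ ∫ u in VS (fun j => (c j : ℕ)), (gi f i (pt A B N c u) + θ) :=
        integral_nonneg fun u => add_nonneg (sq_nonneg _) hθ0.le
      have h6 : 0 ≤ ∏ j, qq φ A B N (c j) := by
        rw [← hq]
        exact Finset.prod_nonneg fun j _ => (q0 _).le
      positivity
    rw [← cell_sum hf θ ((1 + η) / 2 * δ ^ 2)]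
    have st : ∀ (a : Fin N) (i : ι) (c : ι → Fin (N + 1)),
        c i = a.castSucc → Monotone c → (∀ j, j ≠ i → c j ≠ a.castSucc ∧ c j ≠ a.succ) →
        ww q c * (q a.succ / (q a.castSucc + q a.succ)) *
          (av A B N f (Function.update c i a.succ) - av A B N f c) ^ 2 ≤
        (1 + η) / 2 * δ ^ 2 *
          ((∏ j, qq φ A B N (c j)) * ∫ u in VS (fun j => (c j : ℕ)), (gi f i (pt A B N c u) + θ)) := by
      intro a i c hi hc hj
      have hv := (h1 ι N a c i hi hj).1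
      rw [hδd] at w5
      have h5 := term_est hAB hf hi hv (hvpos c hc) w5
      rw [← hδd] at h5
      have h6 : 0 ≤ ∏ j, q (c j) := Finset.prod_nonneg fun j _ => (q0 _).le
      have h7 := w4 a
      have h8 : 0 ≤ q a.succ / (q a.castSucc + q a.succ) :=
        div_nonneg (q0 _).le (by linarith [q0 a.castSucc, q0 a.succ])
      unfold ww
      rw [← hq]
      have h9 : 0 ≤ (vv fun j => (c j : ℕ)) *
          (av A B N f (Function.update c i a.succ) - av A B N f c) ^ 2 :=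
        mul_nonneg (hvnn c) (sq_nonneg _)
      calc (∏ j, q (c j)) * (vv fun j => (c j : ℕ)) * (q a.succ / (q a.castSucc + q a.succ)) *
            (av A B N f (Function.update c i a.succ) - av A B N f c) ^ 2
          = (∏ j, q (c j)) * ((q a.succ / (q a.castSucc + q a.succ)) * ((vv fun j => (c j : ℕ)) *
            (av A B N f (Function.update c i a.succ) - av A B N f c) ^ 2)) := by ring
        _ ≤ (∏ j, q (c j)) * ((1 + η) / 2 * (δ ^ 2 *
            ∫ u in VS (fun j => (c j : ℕ)), (gi f i (pt A B N c u) + θ))) :=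
            mul_le_mul_of_nonneg_left (mul_le_mul h7 h5 h9 (by linarith)) h6
        _ = _ := by ring
    calc _ ≤ ∑ a : Fin N, ∑ i : ι, ∑ c : ι → Fin (N + 1), (if c i = a.castSucc then
          (1 + η) / 2 * δ ^ 2 * ((∏ j, qq φ A B N (c j)) *
            ∫ u in VS (fun j => (c j : ℕ)), (gi f i (pt A B N c u) + θ)) else 0) := by
          refine Finset.sum_le_sum fun a _ => Finset.sum_le_sum fun i _ =>
            Finset.sum_le_sum fun c _ => ?_
          split_ifs with p1 p2 p2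
          · exact st a i c p1.1 p1.2.1 p1.2.2
          · exact absurd p1.1 p2
          · exact hY0 i c
          · exact le_rfl
      _ = ∑ i : ι, ∑ c : ι → Fin (N + 1), ∑ a : Fin N, (if c i = a.castSucc then
          (1 + η) / 2 * δ ^ 2 * ((∏ j, qq φ A B N (c j)) *
            ∫ u in VS (fun j => (c j : ℕ)), (gi f i (pt A B N c u) + θ)) else 0) := by
          rw [Finset.sum_comm]
          refine Finset.sum_congr rfl fun i _ => ?_
          rw [Finset.sum_comm]
      _ ≤ _ := by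
          refine Finset.sum_le_sum fun i _ => Finset.sum_le_sum fun c _ => ?_
          exact sum_one (c i) (hY0 i c)
  · -- the second sum
    have h5 := h3 ι N q q0 (av A B N f) (L * (2 * δ)) (by positivity) (by
      intro a c d hc hd hb
      have := av_close h0 hAB hf hL0 hL hc hd hb
      rw [← hδd] at this
      exact this)
    have h6 : (L * (2 * δ)) ^ 2 * (Fintype.card ι : ℝ) ^ 2 *
        (∑ a : Fin N, (q a.castSucc + q a.succ) ^ 2) * (∑ b, q b) ^ Fintype.card ι ≤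
        (L * (2 * δ)) ^ 2 * n ^ 2 * (4 * Φ ^ 2 * (B - A) * δ) *
          (Φ * (B - A)) ^ Fintype.card ι := by
      rw [← hn]
      refine mul_le_mul (mul_le_mul_of_nonneg_left Q3 (by positivity))
        (pow_le_pow_left₀ Q0.le Q2 _) (by positivity) (by positivity)
    have h7 := h5.trans h6
    rw [mul_comm, ← le_div_iff₀ (by positivity)] at h7
    refine h7.trans ?_
    have h8 : (m * (B - A)) ^ 2 ≤ (∑ b, q b) ^ 2 := pow_le_pow_left₀ (by positivity) Q1 2
    calc _ ≤ (L * (2 * δ)) ^ 2 * n ^ 2 * (4 * Φ ^ 2 * (B - A) * δ) *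
          (Φ * (B - A)) ^ Fintype.card ι / (m * (B - A)) ^ 2 :=
          div_le_div_of_nonneg_left (by positivity) (by positivity) h8
      _ = K * δ ^ 3 := by
          rw [hK]
          ring

end Pool.Agent.Q166.OP
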