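import Pool.Agent.Q289.OP.Stm
import Pool.Agent.Q289.OP.Stm2

/-!
# Project OP (helper289): local variances of the averages, preliminaries
-/

set_option autoImplicit false

namespace Pool.Agent.Q166.OP

open MeasureTheory Set Filter Topology Q289.OP

/-! ### cells on the line -/

theorem dl_pos {A B : ℝ} (h : A < B) (N : ℕ) : 0 < dl A B N := by
  unfold dl
  have : (0 : ℝ) < (N : ℝ) + 1 := by positivity
  exact div_pos (by linarith) this

theorem dl_mul (A B : ℝ) (N : ℕ) : dl A B N * ((N : ℝ) + 1) = B - A := by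
  unfold dl
  have : ((N : ℝ) + 1) ≠ 0 := by positivity
  field_simp

theorem dl_tendsto (A B : ℝ) : Tendsto (fun N => dl A B N) atTop (𝓝 0) := by
  unfold dl
  have h := tendsto_one_div_add_atTop_nhds_zero_nat (𝕜 := ℝ)
  have h2 := h.const_mul (B - A)
  rw [mul_zero] at h2
  refine h2.congr ?_
  intro n
  rw [mul_one_div]

theorem in_box {A B : ℝ} (h : A < B) {N : ℕ} (b : Fin (N + 1)) {t : ℝ} (h0 : 0 ≤ t) (h1 : t ≤ 1) :
    A + dl A B N * ((b : ℕ) + t) ∈ Icc A B := by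
  have hd := dl_pos h N
  have hb : ((b : ℕ) : ℝ) + 1 ≤ (N : ℝ) + 1 := by
    have := b.2
    have h2 : (b : ℕ) + 1 ≤ N + 1 := by omega
    exact_mod_cast h2
  have hb0 : (0 : ℝ) ≤ ((b : ℕ) : ℝ) := Nat.cast_nonneg _
  constructor
  · have : 0 ≤ dl A B N * ((b : ℕ) + t) := by positivity
    linarith
  · have h3 : dl A B N * ((b : ℕ) + t) ≤ dl A B N * ((N : ℝ) + 1) :=
      mul_le_mul_of_nonneg_left (by linarith) hd.le
    rw [dl_mul] at h3
    linarith

/-- the cell -/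
def cl (A B : ℝ) (N : ℕ) (b : ℕ) : Set ℝ := Ico (A + dl A B N * b) (A + dl A B N * (b + 1))

theorem cl_sub {A B : ℝ} (h : A < B) {N : ℕ} (b : Fin (N + 1)) : cl A B N (b : ℕ) ⊆ Icc A B := by
  intro x hx
  have h1 := in_box h b (t := 0) le_rfl zero_le_one
  have h2 := in_box h b (t := 1) zero_le_one le_rfl
  rw [add_zero] at h1
  exact ⟨h1.1.trans hx.1, hx.2.le.trans h2.2⟩

theorem cl_vol {A B : ℝ} (h : A < B) (N b : ℕ) : volume.real (cl A B N b) = dl A B N := by
  unfold cl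
  rw [Real.volume_real_Ico_of_le]
  · ring
  · have := dl_pos h N
    nlinarith

theorem cl_int {φ : ℝ → ℝ} {A B : ℝ} (h : Gd φ A B) {N : ℕ} (b : Fin (N + 1)) :
    IntegrableOn φ (cl A B N (b : ℕ)) :=
  (h.cont.integrableOn_compact isCompact_Icc).mono_set (cl_sub h.lt b)

theorem qq_eq (φ : ℝ → ℝ) (A B : ℝ) (N : ℕ) (b : Fin (N + 1)) :
    qq φ A B N b = ∫ x in cl A B N (b : ℕ), φ x := rfl

theorem qq_ge {φ : ℝ → ℝ} {A B : ℝ} (h : Gd φ A B) {N : ℕ} (b : Fin (N + 1)) {s : ℝ}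
    (hs : ∀ x ∈ cl A B N (b : ℕ), s ≤ φ x) : s * dl A B N ≤ qq φ A B N b := by
  have h1 : ∫ x in cl A B N (b : ℕ), s = s * dl A B N := by
    rw [setIntegral_const, cl_vol h.lt, smul_eq_mul, mul_comm]
  rw [qq_eq, ← h1]
  refine setIntegral_mono_on ?_ (cl_int h b) measurableSet_Ico hs
  exact integrableOn_const (by unfold cl; rw [Real.volume_Ico]; exact ENNReal.ofReal_ne_top)

theorem qq_le {φ : ℝ → ℝ} {A B : ℝ} (h : Gd φ A B) {N : ℕ} (b : Fin (N + 1)) {s : ℝ}
    (hs : ∀ x ∈ cl A B N (b : ℕ), φ x ≤ s) : qq φ A B N b ≤ s * dl A B N := by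
  have h1 : ∫ x in cl A B N (b : ℕ), s = s * dl A B N := by
    rw [setIntegral_const, cl_vol h.lt, smul_eq_mul, mul_comm]
  rw [qq_eq, ← h1]
  refine setIntegral_mono_on (cl_int h b) ?_ measurableSet_Ico hs
  exact integrableOn_const (by unfold cl; rw [Real.volume_Ico]; exact ENNReal.ofReal_ne_top)

/-- bounds of the density -/
theorem exists_bounds {φ : ℝ → ℝ} {A B : ℝ} (h : Gd φ A B) :
    ∃ m Φ : ℝ, 0 < m ∧ ∀ x ∈ Icc A B, m ≤ φ x ∧ φ x ≤ Φ := by
  have hne : (Icc A B).Nonempty := ⟨A, left_mem_Icc.2 h.lt.le⟩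
  obtain ⟨x0, hx0, h0⟩ := isCompact_Icc.exists_isMinOn hne h.cont
  obtain ⟨x1, hx1, h1⟩ := isCompact_Icc.exists_isMaxOn hne h.cont
  exact ⟨φ x0, φ x1, h.pos x0 hx0, fun x hx => ⟨h0 hx, h1 hx⟩⟩

/-- the ratio of neighbouring masses -/
theorem ratio {φ : ℝ → ℝ} {A B : ℝ} (h : Gd φ A B) {η : ℝ} (hη : 0 < η) (hη1 : η ≤ 1 / 2) :
    ∀ᶠ N : ℕ in atTop, ∀ a : Fin N,
      qq φ A B N a.succ / (qq φ A B N a.castSucc + qq φ A B N a.succ) ≤ (1 + η) / 2 := by
  obtain ⟨m, Φ, hm, hmΦ⟩ := exists_bounds h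
  have hu := isCompact_Icc.uniformContinuousOn_of_continuous h.cont
  rw [Metric.uniformContinuousOn_iff] at hu
  obtain ⟨r, hr, hr2⟩ := hu (η * m) (by positivity)
  have hev := (dl_tendsto A B).eventually (gt_mem_nhds hr)
  filter_upwards [hev] with N hN a
  have hd := dl_pos h.lt N
  -- the common end point
  obtain ⟨y, hy⟩ : ∃ y : ℝ, y = A + dl A B N * ((a : ℕ) + 1) := ⟨_, rfl⟩
  have hyI : y ∈ Icc A B := by
    have := in_box h.lt a.castSucc (t := 1) zero_le_one le_rfl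
    rw [hy]
    simpa using this
  have hφy := (hmΦ y hyI).1
  have e1 : ((a.castSucc : Fin (N + 1)) : ℕ) = (a : ℕ) := rfl
  have e2 : ((a.succ : Fin (N + 1)) : ℕ) = (a : ℕ) + 1 := rfl
  have k1 : φ y * (1 - η) * dl A B N ≤ qq φ A B N a.castSucc := by
    apply qq_ge h
    intro x hx
    have hxI := cl_sub h.lt a.castSucc hx
    unfold cl at hx
    rw [e1] at hx
    have hdist : dist y x < r := by
      rw [Real.dist_eq, abs_lt]
      have h1 := hx.1
      have h2 := hx.2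
      constructor <;> nlinarith
    have := hr2 y hyI x hxI hdist
    rw [Real.dist_eq, abs_lt] at this
    nlinarith
  have k2 : qq φ A B N a.succ ≤ φ y * (1 + η) * dl A B N := by
    apply qq_le h
    intro x hx
    have hxI := cl_sub h.lt a.succ hx
    unfold cl at hx
    rw [e2] at hx
    push_cast at hx
    have hdist : dist y x < r := by
      rw [Real.dist_eq, abs_lt]
      have h1 := hx.1
      have h2 := hx.2
      constructor <;> nlinarith
    have := hr2 y hyI x hxI hdist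
    rw [Real.dist_eq, abs_lt] at this
    nlinarith
  have hφ0 : 0 < φ y := h.pos y hyI
  have p1 : 0 < qq φ A B N a.castSucc := by
    refine lt_of_lt_of_le ?_ k1
    have : 0 < 1 - η := by linarith
    positivity
  have p2 : 0 < qq φ A B N a.succ := by
    have := qq_ge h a.succ (s := m) (fun x hx => (hmΦ x (cl_sub h.lt a.succ hx)).1)
    refine lt_of_lt_of_le ?_ this
    positivity
  rw [div_le_div_iff₀ (by linarith) (by norm_num)]
  have k3 : (1 - η) * qq φ A B N a.succ ≤ (1 + η) * qq φ A B N a.castSucc := by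
    calc (1 - η) * qq φ A B N a.succ ≤ (1 - η) * (φ y * (1 + η) * dl A B N) :=
          mul_le_mul_of_nonneg_left k2 (by linarith)
      _ = (1 + η) * (φ y * (1 - η) * dl A B N) := by ring
      _ ≤ (1 + η) * qq φ A B N a.castSucc := mul_le_mul_of_nonneg_left k1 (by linarith)
  linarith

end Pool.Agent.Q166.OP
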