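import Pool.Agent.Q166.OP.LocA

/-!
# Project OP (helper289): local variances of the averages, integrals over the cells
-/

set_option autoImplicit false

namespace Pool.Agent.Q166.OP

open MeasureTheory Set Filter Topology Q289.OP

variable {ι : Type} [Fintype ι]

section meas

variable [PartialOrder ι]

theorem vs_meas (c : ι → ℕ) : MeasurableSet (VS c) := by
  have h : VS c = (⋂ i, {u : ι → ℝ | u i ∈ Ico (0 : ℝ) 1}) ∩
      ⋂ i, ⋂ j, {u : ι → ℝ | i ≤ j → (c i : ℝ) + u i ≤ (c j : ℝ) + u j} := by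
    ext u
    simp only [VS, mem_ofPred_eq, mem_inter_iff, mem_iInter, Monotone]
  rw [h]
  refine (MeasurableSet.iInter fun i => ?_).inter (MeasurableSet.iInter fun i =>
    MeasurableSet.iInter fun j => ?_)
  · exact (measurable_pi_apply i) measurableSet_Ico
  · by_cases hij : i ≤ j
    · simp only [hij, forall_const]
      exact measurableSet_le ((measurable_pi_apply i).const_add _)
        ((measurable_pi_apply j).const_add _)
    · simp only [hij, IsEmpty.forall_iff]
      exact MeasurableSet.univ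

omit [Fintype ι] in
theorem vs_sub (c : ι → ℕ) : VS c ⊆ Set.pi univ fun _ => Icc (0 : ℝ) 1 :=
  fun _ hu i _ => ⟨(hu.1 i).1, (hu.1 i).2.le⟩

omit [Fintype ι] [PartialOrder ι] in
theorem cube_compact : IsCompact (Set.pi univ fun _ : ι => Icc (0 : ℝ) 1) :=
  isCompact_univ_pi fun _ => isCompact_Icc

theorem vs_int {g : (ι → ℝ) → ℝ} (hg : Continuous g) (c : ι → ℕ) : IntegrableOn g (VS c) :=
  (hg.continuousOn.integrableOn_compact cube_compact).mono_set (vs_sub c)

theorem vs_fin (c : ι → ℕ) : volume (VS c) ≠ ⊤ :=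
  ((measure_mono (vs_sub c)).trans_lt cube_compact.measure_lt_top).ne

theorem vv_eq (c : ι → ℕ) : vv c = volume.real (VS c) := rfl

theorem int_const (c : ι → ℕ) (s : ℝ) : ∫ _ in VS c, s = s * vv c := by
  rw [setIntegral_const, smul_eq_mul, mul_comm]
  rfl

/-- Jensen -/
theorem jensen {h : (ι → ℝ) → ℝ} (hh : Continuous h) (c : ι → ℕ) (hv : 0 < vv c) :
    (∫ u in VS c, h u) ^ 2 / vv c ≤ ∫ u in VS c, h u ^ 2 := by
  obtain ⟨t, ht⟩ : ∃ t : ℝ, t = (∫ u in VS c, h u) / vv c := ⟨_, rfl⟩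
  have h0 : 0 ≤ ∫ u in VS c, (h u - t) ^ 2 := integral_nonneg fun u => sq_nonneg _
  have i1 : IntegrableOn (fun u => h u ^ 2) (VS c) := vs_int (hh.pow 2) c
  have i2 : IntegrableOn (fun u => 2 * t * h u) (VS c) := (vs_int hh c).const_mul _
  have i3 : IntegrableOn (fun _ : ι → ℝ => t ^ 2) (VS c) := integrableOn_const (vs_fin c)
  have h1 : ∫ u in VS c, (h u - t) ^ 2 = (∫ u in VS c, h u ^ 2) - 2 * t * (∫ u in VS c, h u) +
      t ^ 2 * vv c := by
    have e : ∀ u, (h u - t) ^ 2 = h u ^ 2 - 2 * t * h u + t ^ 2 := fun u => by ring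
    simp only [e]
    have i12 : Integrable (fun u => h u ^ 2 - 2 * t * h u) (volume.restrict (VS c)) :=
      Integrable.sub i1 i2
    rw [integral_add i12 i3, integral_sub i1 i2, integral_const_mul, int_const]
  rw [h1] at h0
  have h2 : t * vv c = ∫ u in VS c, h u := by
    rw [ht]
    field_simp
  have h3 : (∫ u in VS c, h u) ^ 2 / vv c = t * ∫ u in VS c, h u := by
    rw [ht]
    ring
  have h4 : t ^ 2 * vv c = t * ∫ u in VS c, h u := by
    rw [← h2]
    ring
  rw [h3]
  linarith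

/-- averages are close to the values -/
theorem avg_close {g : (ι → ℝ) → ℝ} (hg : Continuous g) (c : ι → ℕ) (hv : 0 < vv c) {s ω : ℝ}
    (h : ∀ u ∈ VS c, |g u - s| ≤ ω) : |(∫ u in VS c, g u) / vv c - s| ≤ ω := by
  have i3 : IntegrableOn (fun _ : ι → ℝ => s) (VS c) := integrableOn_const (vs_fin c)
  have h1 : (∫ u in VS c, g u) / vv c - s = (∫ u in VS c, (g u - s)) / vv c := by
    rw [integral_sub (vs_int hg c) i3, int_const]
    field_simp
  have h2 : ‖∫ u in VS c, (g u - s)‖ ≤ ω * volume.real (VS c) :=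
    norm_setIntegral_le_of_norm_le_const (vs_fin c).lt_top h
  rw [h1, abs_div, abs_of_pos hv, div_le_iff₀ hv]
  exact h2

end meas

/-! ### differences in one direction -/

variable [DecidableEq ι]

/-- the unit vector -/
abbrev ev (i : ι) : ι → ℝ := Pi.single i 1

/-- the box -/
def Bx (ι : Type) (A B : ℝ) : Set (ι → ℝ) := Set.pi univ fun _ => Icc A B

omit [Fintype ι] [DecidableEq ι] in
theorem bx_compact (A B : ℝ) : IsCompact (Bx ι A B) := isCompact_univ_pi fun _ => isCompact_Icc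

omit [Fintype ι] [DecidableEq ι] in
theorem mem_bx {A B : ℝ} {x : ι → ℝ} : x ∈ Bx ι A B ↔ ∀ i, x i ∈ Icc A B := by
  unfold Bx
  rw [Set.mem_pi]
  exact ⟨fun h i => h i (mem_univ i), fun h i _ => h i⟩

/-- the square of the partial derivative -/
noncomputable def gi (f : (ι → ℝ) → ℝ) (i : ι) (x : ι → ℝ) : ℝ := (fderiv ℝ f x (ev i)) ^ 2

theorem gi_cont {f : (ι → ℝ) → ℝ} (hf : ContDiff ℝ 1 f) (i : ι) : Continuous (gi f i) := by
  have h := hf.continuous_fderiv (by norm_num)
  exact (h.clm_apply continuous_const).pow 2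

theorem gr_eq (f : (ι → ℝ) → ℝ) (x : ι → ℝ) : gr f x = ∑ i, gi f i x := rfl

theorem mvt {f : (ι → ℝ) → ℝ} (hf : ContDiff ℝ 1 f) (i : ι) {δ : ℝ} (hδ : 0 < δ) (x : ι → ℝ) :
    ∃ t, 0 < t ∧ t < δ ∧ (f (x + δ • ev i) - f x) ^ 2 = δ ^ 2 * gi f i (x + t • ev i) := by
  have hd : ∀ t : ℝ, HasDerivAt (fun t : ℝ => f (x + t • ev i))
      (fderiv ℝ f (x + t • ev i) (ev i)) t := by
    intro t
    have h1 : HasDerivAt (fun t : ℝ => x + t • ev i) (ev i) t := by
      have h2 := ((hasDerivAt_id t).smul_const (ev i)).const_add x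
      simpa using h2
    exact ((hf.differentiable (by norm_num)) (x + t • ev i)).hasFDerivAt.comp_hasDerivAt t h1
  obtain ⟨t, ht, he⟩ := exists_hasDerivAt_eq_slope (fun t : ℝ => f (x + t • ev i))
    (fun t => fderiv ℝ f (x + t • ev i) (ev i)) hδ
    (fun t _ => (hd t).continuousAt.continuousWithinAt) (fun t _ => hd t)
  refine ⟨t, ht.1, ht.2, ?_⟩
  unfold gi
  rw [he]
  simp only [zero_smul, add_zero, sub_zero]
  field_simp

/-- uniform estimate of the differences -/
theorem diff_est {f : (ι → ℝ) → ℝ} (hf : ContDiff ℝ 1 f) {A B η : ℝ} (hAB : A < B) (hη : 0 < η) :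
    ∀ᶠ N : ℕ in atTop, ∀ (i : ι) (x : ι → ℝ), x ∈ Bx ι A B → x + dl A B N • ev i ∈ Bx ι A B →
      (f (x + dl A B N • ev i) - f x) ^ 2 ≤ dl A B N ^ 2 * (gi f i x + η) := by
  rw [eventually_all]
  intro i
  have hu := (bx_compact (ι := ι) A B).uniformContinuousOn_of_continuous
    (gi_cont hf i).continuousOn
  rw [Metric.uniformContinuousOn_iff] at hu
  obtain ⟨r, hr, hr2⟩ := hu η hη
  have hev := (dl_tendsto A B).eventually (gt_mem_nhds hr)
  filter_upwards [hev] with N hN x hx hx'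
  have hd := dl_pos hAB N
  obtain ⟨t, ht0, ht1, he⟩ := mvt hf i hd x
  rw [he]
  have hy : x + t • ev i ∈ Bx ι A B := by
    rw [mem_bx] at hx hx' ⊢
    intro j
    have h1 := hx j
    have h2 := hx' j
    rw [Pi.add_apply, Pi.smul_apply, smul_eq_mul] at h2 ⊢
    by_cases hij : j = i
    · subst hij
      simp only [ev, Pi.single_eq_same, mul_one] at h2 ⊢
      exact ⟨by linarith [h1.1], by linarith [h2.2]⟩
    · simp only [ev, Pi.single_eq_of_ne hij, mul_zero, add_zero]
      exact h1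
  have hdist : dist (x + t • ev i) x < r := by
    rw [dist_pi_lt_iff hr]
    intro j
    rw [Pi.add_apply, Pi.smul_apply, smul_eq_mul, Real.dist_eq, add_sub_cancel_left]
    by_cases hij : j = i
    · subst hij
      simp only [ev, Pi.single_eq_same, mul_one]
      rw [abs_of_pos ht0]
      linarith
    · simp only [ev, Pi.single_eq_of_ne hij, mul_zero, abs_zero]
      exact hr
  have h3 := hr2 _ hy _ hx hdist
  rw [Real.dist_eq, abs_lt] at h3
  have h4 : gi f i (x + t • ev i) ≤ gi f i x + η := by linarith [h3.2]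
  exact mul_le_mul_of_nonneg_left h4 (sq_nonneg _)

omit [DecidableEq ι] in
/-- Lipschitz on the box -/
theorem lip {f : (ι → ℝ) → ℝ} (hf : ContDiff ℝ 1 f) (A B : ℝ) : ∃ L : ℝ, 0 ≤ L ∧
    ∀ x ∈ Bx ι A B, ∀ y ∈ Bx ι A B, |f x - f y| ≤ L * dist x y := by
  obtain ⟨K, hK⟩ := (hf.locallyLipschitz.locallyLipschitzOn
    (s := Bx ι A B)).exists_lipschitzOnWith_of_compact (bx_compact A B)
  refine ⟨K, K.2, fun x hx y hy => ?_⟩
  have := hK.dist_le_mul x hx y hy
  rwa [Real.dist_eq] at this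

end Pool.Agent.Q166.OP
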